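import Pool.Agent.Lib.MP_b75863_nt.Entry

set_option autoImplicit false
open Filter Topology
open Pool.Agent.Lib.MP_b75863_nt

namespace Pool.Agent.Results.MP_b75863_nt.ClosedClassEntry

variable {d : ℕ} {a b : ℕ → ℤ} {T : ℤ → ℤ}

/-- The trajectory of `x` is divergent (unbounded). -/
def Divergent (T : ℤ → ℤ) (x : ℤ) : Prop := ∀ B : ℤ, ∃ k : ℕ, B < |T^[k] x|

/-- The trajectory of `x` eventually stays in one closed communicating class of `Q_T(m)`. -/
def EntersClosedClass (d m : ℕ) (T : ℤ → ℤ) (x : ℤ) : Prop :=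
  ∃ C : Finset ℕ, ClosedClass d m T C ∧ ∃ K : ℕ, ∀ k ≥ K, (T^[k] x % (m : ℤ)).toNat ∈ C

/-- The multipliers not divisible by `p` are either all the `d` multipliers, or at most one of
them, or are all smaller than `d` in absolute value. -/
def TamePrime (d : ℕ) (a : ℕ → ℤ) (p : ℕ) : Prop :=
  (∀ i < d, ¬ (p : ℤ) ∣ a i) ∨ (∃ i₀ : ℕ, ∀ i < d, i ≠ i₀ → (p : ℤ) ∣ a i) ∨
    (∀ i < d, ¬ (p : ℤ) ∣ a i → |a i| < (d : ℤ))

lemma dvd_prod_of_io (c : ℕ → ℤ) (e : ℕ) (he : 0 < e)
    (hio : ∀ p : ℕ, p.Prime → p ∣ e → ∀ N, ∃ k ≥ N, (p : ℤ) ∣ c k) :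
    ∀ N, ∃ n ≥ N, (e : ℤ) ∣ ∏ k ∈ Finset.Ico N n, c k := by
  induction e using Nat.strong_induction_on with
  | _ e ih =>
    intro N
    by_cases h1 : e = 1
    · exact ⟨N, le_rfl, by simp [h1]⟩
    · have hp := Nat.minFac_prime h1
      have hpe := Nat.minFac_dvd e
      set p := e.minFac with hpdef
      obtain ⟨e', he'⟩ := hpe
      have he'pos : 0 < e' := by
        rcases Nat.eq_zero_or_pos e' with h | h
        · rw [h, mul_zero] at he'; omega
        · exact h
      have hlt : e' < e := by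
        rw [he']
        exact (Nat.lt_mul_iff_one_lt_left he'pos).mpr hp.one_lt
      obtain ⟨k, hk, hpk⟩ := hio p hp (Dvd.intro _ he'.symm) N
      obtain ⟨n, hn, hdn⟩ := ih e' hlt he'pos (fun q hq hqe => hio q hq
        (hqe.trans (Dvd.intro_left _ he'.symm))) (k + 1)
      refine ⟨n, by omega, ?_⟩
      rw [← Finset.prod_Ico_consecutive c (by omega : N ≤ k + 1) hn,
        Finset.prod_Ico_succ_top (by omega)]
      have e1 : (e : ℤ) = p * e' := by exact_mod_cast he'
      rw [e1]
      exact mul_dvd_mul (hpk.mul_left _) hdn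

/-- If every prime factor of `m` which divides some multiplier divides infinitely many of the
multipliers used by the trajectory, then the trajectory enters a closed class of `Q_T(m)`. -/
lemma enters_of_io (hT : RPType d a b T) {m : ℕ} (hm : 1 ≤ m) {x : ℤ}
    (hio : ∀ p : ℕ, p.Prime → p ∣ m → (∃ i < d, (p : ℤ) ∣ a i) →
      ∀ N, ∃ k ≥ N, (p : ℤ) ∣ a (res d (T^[k] x))) : EntersClosedClass d m T x := by
  classical
  have hd : 2 ≤ d := hT.two_le
  set A : ℕ := ∏ i ∈ Finset.range d, (a i).natAbs with hA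
  have ha0 : ∀ i < d, a i ≠ 0 := by
    intro i hi h0
    have h1 := hT.coprime i hi
    rw [h0, isCoprime_zero_left, Int.isUnit_iff] at h1
    omega
  have hApos : 0 < A := by
    rw [hA]
    exact Finset.prod_pos (fun i hi => Int.natAbs_pos.mpr (ha0 i (Finset.mem_range.mp hi)))
  set mc := Nat.gcd m (A ^ m) with hmc
  have hmcpos : 0 < mc := Nat.gcd_pos_of_pos_left _ (by omega)
  obtain ⟨m', hm'⟩ : mc ∣ m := Nat.gcd_dvd_left _ _
  have hm'pos : 0 < m' := by
    rcases Nat.eq_zero_or_pos m' with h | h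
    · rw [h, mul_zero] at hm'; omega
    · exact h
  -- `m'` is coprime to `A`
  have hcopA : Nat.Coprime A m' := by
    rw [Nat.coprime_iff_gcd_eq_one]
    by_contra hne
    obtain ⟨p, hp, hpd⟩ := Nat.exists_prime_and_dvd hne
    have hpA : p ∣ A := hpd.trans (Nat.gcd_dvd_left _ _)
    have hpm' : p ∣ m' := hpd.trans (Nat.gcd_dvd_right _ _)
    have : Fact p.Prime := ⟨hp⟩
    -- valuations
    have h1 : padicValNat p m = padicValNat p mc + padicValNat p m' := by
      conv_lhs => rw [hm']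
      exact padicValNat.mul hmcpos.ne' hm'pos.ne'
    have h2 : 1 ≤ padicValNat p m' := one_le_padicValNat_of_dvd hm'pos.ne' hpm'
    have h3 : p ^ (padicValNat p m) ∣ mc := by
      rw [hmc]
      apply Nat.dvd_gcd
      · exact pow_padicValNat_dvd
      · have h4 : padicValNat p m ≤ m := by
          have h5 : p ^ padicValNat p m ∣ m := pow_padicValNat_dvd
          have h6 := Nat.le_of_dvd (by omega) h5
          exact (Nat.lt_pow_self hp.one_lt).le.trans h6
        exact (pow_dvd_pow p h4).trans (pow_dvd_pow_of_dvd hpA m)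
    have h7 : padicValNat p m ≤ padicValNat p mc :=
      (padicValNat_dvd_iff_le hmcpos.ne').mp h3
    omega
  have hcop : ∀ i < d, IsCoprime (a i) (m' : ℤ) := by
    intro i hi
    have h1 : (a i).natAbs ∣ A := Finset.dvd_prod_of_mem _ (Finset.mem_range.mpr hi)
    have h2 : Nat.Coprime (a i).natAbs m' := Nat.Coprime.coprime_dvd_left h1 hcopA
    rw [Int.isCoprime_iff_gcd_eq_one]
    exact h2
  have hio' : ∀ p : ℕ, p.Prime → p ∣ mc → ∀ N, ∃ k ≥ N, (p : ℤ) ∣ a (res d (T^[k] x)) := by
    intro p hp hpmc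
    have h1 : p ∣ m := hpmc.trans (Nat.gcd_dvd_left _ _)
    have h2 : p ∣ A := hp.dvd_of_dvd_pow (hpmc.trans (Nat.gcd_dvd_right _ _))
    rw [hA, Prime.dvd_finset_prod_iff hp.prime] at h2
    obtain ⟨i, hi, hpi⟩ := h2
    exact hio p hp h1 ⟨i, Finset.mem_range.mp hi, Int.natCast_dvd.mpr hpi⟩
  obtain ⟨n, -, hn⟩ := dvd_prod_of_io (fun k => a (res d (T^[k] x))) mc hmcpos hio' 0
  rw [← Finset.range_eq_Ico] at hn
  exact class_of_recurrent hT hm (n := n) (fun j0 h =>
    recurrent_of_prod hT hm (by rw [mul_comm]; exact hm') hcop hn h)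

lemma bounded_of_fixed {x : ℤ} {N : ℕ} (h : T (T^[N] x) = T^[N] x) : ¬ Divergent T x := by
  intro hdiv
  have h1 : ∀ k, T^[k + N] x = T^[N] x := by
    intro k
    induction k with
    | zero => simp
    | succ k ih => rw [show k + 1 + N = (k + N) + 1 by ring, Function.iterate_succ_apply', ih, h]
  obtain ⟨k, hk⟩ := hdiv (∑ j ∈ Finset.range (N + 1), |T^[j] x|)
  have hmem : ∀ j ≤ N, |T^[j] x| ≤ ∑ j ∈ Finset.range (N + 1), |T^[j] x| := fun j hj =>
    Finset.single_le_sum (f := fun j => |T^[j] x|) (fun i _ => abs_nonneg _)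
      (Finset.mem_range.mpr (by omega))
  rcases le_or_gt k N with h2 | h2
  · exact absurd (hmem k h2) (not_le.mpr hk)
  · have h3 := h1 (k - N)
    rw [show k - N + N = k by omega] at h3
    rw [h3] at hk
    exact absurd (hmem N le_rfl) (not_le.mpr hk)

lemma mul_T (hT : RPType d a b T) (z : ℤ) :
    (d : ℤ) * T z = a (res d z) * z - b (res d z) := by
  have hd : 2 ≤ d := hT.two_le
  have h0 : 1 ≤ d := by omega
  rw [hT.eq]
  have hlt : res d z < d := res_lt h0 z
  have h1 := hT.dvd _ hlt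
  have h2 : (d : ℤ) ∣ a (res d z) * z - b (res d z) := by
    have h3 : (d : ℤ) ∣ z - ((res d z : ℕ) : ℤ) := by
      rw [res_cast h0]
      exact Int.dvd_self_sub_emod
    have h4 := (h3.mul_left (a (res d z))).add h1
    have e : a (res d z) * (z - ((res d z : ℕ) : ℤ)) + (a (res d z) * ((res d z : ℕ) : ℤ) -
      b (res d z)) = a (res d z) * z - b (res d z) := by ring
    rwa [e] at h4
  exact Int.mul_ediv_cancel' h2

/-- eventually constant digits force a fixed point -/
lemma fixed_of_const (hT : RPType d a b T) {x : ℤ} {N i₀ : ℕ} (hi₀ : i₀ < d)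
    (h : ∀ k ≥ N, res d (T^[k] x) = i₀) : T (T^[N] x) = T^[N] x := by
  have hd : 2 ≤ d := hT.two_le
  set u : ℕ → ℤ := fun k => T^[N + k + 1] x - T^[N + k] x with hu
  have hrec : ∀ k, (d : ℤ) * u (k + 1) = a i₀ * u k := by
    intro k
    have h1 := mul_T hT (T^[N + k + 1] x)
    have h2 := mul_T hT (T^[N + k] x)
    rw [h _ (by omega), ← Function.iterate_succ_apply' T] at h1 h2
    simp only [hu]
    show (d : ℤ) * (T^[N + k + 1 + 1] x - T^[N + k + 1] x) = a i₀ * (T^[N + k + 1] x - T^[N + k] x)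
    have h1' : (d : ℤ) * T^[N + k + 1 + 1] x = a i₀ * T^[N + k + 1] x - b i₀ := h1
    have h2' : (d : ℤ) * T^[N + k + 1] x = a i₀ * T^[N + k] x - b i₀ := h2
    linear_combination h1' - h2'
  have hpow : ∀ k, (d : ℤ) ^ k * u k = a i₀ ^ k * u 0 := by
    intro k
    induction k with
    | zero => simp
    | succ k ih =>
      rw [pow_succ, mul_assoc, hrec, pow_succ]
      linear_combination (a i₀) * ih
  have hdvd : ∀ k, (d : ℤ) ^ k ∣ u 0 := by
    intro k
    have h1 : (d : ℤ) ^ k ∣ a i₀ ^ k * u 0 := Dvd.intro _ (hpow k)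
    exact ((hT.coprime i₀ hi₀).symm.pow (m := k) (n := k)).dvd_of_dvd_mul_left h1
  have h0 : u 0 = 0 := by
    by_contra hne
    have h1 := hdvd (u 0).natAbs
    have h2 : ((d : ℤ) ^ (u 0).natAbs).natAbs ≤ (u 0).natAbs :=
      Int.natAbs_le_of_dvd_ne_zero h1 hne
    rw [Int.natAbs_pow] at h2
    simp only [Int.natAbs_natCast] at h2
    exact absurd (Nat.lt_pow_self (show 1 < d by omega) (n := (u 0).natAbs)) (not_lt.mpr h2)
  simp only [hu, add_zero, Function.iterate_succ_apply'] at h0
  linarith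

/-- eventually contracting multipliers force boundedness -/
lemma bounded_of_small (hT : RPType d a b T) {x : ℤ} {N : ℕ}
    (h : ∀ k ≥ N, |a (res d (T^[k] x))| < (d : ℤ)) : ¬ Divergent T x := by
  classical
  have hd : 2 ≤ d := hT.two_le
  intro hdiv
  set B : ℤ := (∑ i ∈ Finset.range d, |b i|) + ∑ j ∈ Finset.range (N + 1), |T^[j] x| with hB
  have hb : ∀ i < d, |b i| ≤ B := by
    intro i hi
    have h1 : |b i| ≤ ∑ i ∈ Finset.range d, |b i| :=
      Finset.single_le_sum (f := fun j => |b j|) (fun i _ => abs_nonneg _)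
        (Finset.mem_range.mpr hi)
    have h2 : 0 ≤ ∑ j ∈ Finset.range (N + 1), |T^[j] x| :=
      Finset.sum_nonneg (fun i _ => abs_nonneg _)
    linarith
  have hx : ∀ j ≤ N, |T^[j] x| ≤ B := by
    intro j hj
    have h1 : |T^[j] x| ≤ ∑ j ∈ Finset.range (N + 1), |T^[j] x| :=
      Finset.single_le_sum (f := fun j => |T^[j] x|) (fun i _ => abs_nonneg _)
        (Finset.mem_range.mpr (by omega))
    have h2 : 0 ≤ ∑ i ∈ Finset.range d, |b i| :=
      Finset.sum_nonneg (fun i _ => abs_nonneg _)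
    linarith
  have hall : ∀ k, |T^[N + k] x| ≤ B := by
    intro k
    induction k with
    | zero => exact hx N le_rfl
    | succ k ih =>
      have h1 := mul_T hT (T^[N + k] x)
      rw [← Function.iterate_succ_apply' T] at h1
      have hlt : res d (T^[N + k] x) < d := res_lt (by omega) _
      have h2 := h (N + k) (by omega)
      have h3 := hb _ hlt
      have h4 : (d : ℤ) * |T^[N + (k + 1)] x| ≤ ((d : ℤ) - 1) * B + B := by
        have e1 : (d : ℤ) * |T^[N + (k + 1)] x| = |(d : ℤ) * T^[N + k + 1] x| := by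
          rw [abs_mul, Nat.abs_cast]; rfl
        rw [e1]
        have h1' : (d : ℤ) * T^[N + k + 1] x =
          a (res d (T^[N + k] x)) * T^[N + k] x - b (res d (T^[N + k] x)) := h1
        rw [h1']
        refine (abs_sub _ _).trans ?_
        rw [abs_mul]
        have h5 : |a (res d (T^[N + k] x))| * |T^[N + k] x| ≤ ((d : ℤ) - 1) * B :=
          mul_le_mul (by omega) ih (abs_nonneg _) (by omega)
        linarith
      have h5 : (d : ℤ) * |T^[N + (k + 1)] x| ≤ d * B := by linarith
      exact le_of_mul_le_mul_left h5 (by omega)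
  obtain ⟨k, hk⟩ := hdiv B
  rcases le_or_gt k N with h2 | h2
  · exact absurd (hx k h2) (not_le.mpr hk)
  · have h3 := hall (k - N)
    rw [show N + (k - N) = k by omega] at h3
    exact absurd h3 (not_le.mpr hk)

/-- Let `T` be a generalized Collatz mapping of relatively prime type with modulus `d`, and let
`x` be an integer with a divergent trajectory.
1. Let `m ≥ 2` be such that each prime factor `p` of `m` satisfies `TamePrime d a p` or divides
   infinitely many of the multipliers used along the trajectory. Then the trajectory eventually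
   stays in one closed class of `Q_T(m)`.
2. If `d = 2`, then for every `m ≥ 2` the trajectory eventually stays in one closed class of
   `Q_T(m)`. -/
theorem result :
    (∀ (d : ℕ) (a b : ℕ → ℤ) (T : ℤ → ℤ), RPType d a b T → ∀ x : ℤ, Divergent T x →
      ∀ m : ℕ, 2 ≤ m →
      (∀ p : ℕ, p.Prime → p ∣ m →
        TamePrime d a p ∨ ∀ N : ℕ, ∃ k ≥ N, (p : ℤ) ∣ a (T^[k] x % (d : ℤ)).toNat) →
      EntersClosedClass d m T x) ∧
    (∀ (a b : ℕ → ℤ) (T : ℤ → ℤ), RPType 2 a b T → ∀ x : ℤ, Divergent T x →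
      ∀ m : ℕ, 2 ≤ m → EntersClosedClass 2 m T x) := by
  have main : ∀ (d : ℕ) (a b : ℕ → ℤ) (T : ℤ → ℤ), RPType d a b T → ∀ x : ℤ, Divergent T x →
      ∀ m : ℕ, 2 ≤ m →
      (∀ p : ℕ, p.Prime → p ∣ m →
        TamePrime d a p ∨ ∀ N : ℕ, ∃ k ≥ N, (p : ℤ) ∣ a (T^[k] x % (d : ℤ)).toNat) →
      EntersClosedClass d m T x := by
    intro d a b T hT x hx m hm htame
    have hd : 2 ≤ d := hT.two_le
    apply enters_of_io hT (by omega)
    rintro p hp hpm ⟨i, hi, hpi⟩ N
    by_contra hcon
    push Not at hcon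
    rcases htame p hp hpm with (h | ⟨i₀, h⟩ | h) | h
    · exact h i hi hpi
    · have h1 : ∀ k ≥ N, res d (T^[k] x) = i₀ := by
        intro k hk
        by_contra hne
        exact hcon k hk (h _ (res_lt (by omega) _) hne)
      have hi₀ : i₀ < d := by rw [← h1 N le_rfl]; exact res_lt (by omega) _
      exact bounded_of_fixed (fixed_of_const hT hi₀ h1) hx
    · exact bounded_of_small hT (N := N)
        (fun k hk => h _ (res_lt (by omega) _) (hcon k hk)) hx
    · obtain ⟨k, hk, hpk⟩ := h N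
      exact hcon k hk hpk
  refine ⟨main, ?_⟩
  intro a b T hT x hx m hm
  refine main 2 a b T hT x hx m hm ?_
  intro p hp _
  left
  by_cases h0 : (p : ℤ) ∣ a 0
  · right; left
    refine ⟨1, fun i hi hne => ?_⟩
    have : i = 0 := by omega
    rw [this]; exact h0
  · by_cases h1 : (p : ℤ) ∣ a 1
    · right; left
      refine ⟨0, fun i hi hne => ?_⟩
      have : i = 1 := by omega
      rw [this]; exact h1
    · left
      intro i hi
      have : i = 0 ∨ i = 1 := by omega
      rcases this with h | h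
      · rw [h]; exact h0
      · rw [h]; exact h1

end Pool.Agent.Results.MP_b75863_nt.ClosedClassEntry
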