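import Pool.Agent.Lib.MP_b75863_nt.Chain

set_option autoImplicit false
open Filter Topology
open Pool.Agent.Lib.MP_b75863_nt

namespace Pool.Agent.Results.MP_b75863_nt.PowersSuffice

variable {d : ℕ} {a b : ℕ → ℤ} {T : ℤ → ℤ}

/-- the `t`-step sum -/
noncomputable def S (d m : ℕ) (T : ℤ → ℤ) (f : ℕ → ℝ) (t : ℕ) (z : ℤ) : ℝ :=
  ∑ h ∈ Finset.range (d ^ t), f (res m (T^[t] (z + m * h)))

lemma S_per (hT : RPType d a b T) (m : ℕ) (f : ℕ → ℝ) (t : ℕ) (w : ℤ) (y : ℤ) :
    f (res m (T^[t] (w + m * (y + ((d ^ t : ℕ) : ℤ))))) = f (res m (T^[t] (w + m * y))) := by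
  obtain ⟨v, hv⟩ := hT.res_iter_add m t t le_rfl (w + m * y) 1
  have e : w + m * (y + ((d ^ t : ℕ) : ℤ)) = (w + m * y) + m * d ^ t * 1 := by push_cast; ring
  rw [e, hv, res_add_mul]

lemma S_congr (hT : RPType d a b T) (m : ℕ) (hm : 1 ≤ m) (f : ℕ → ℝ) (t : ℕ) (w : ℤ) :
    S d m T f t w = S d m T f t ((res m w : ℕ) : ℤ) := by
  have hd : 2 ≤ d := hT.two_le
  have hn : 1 ≤ d ^ t := Nat.one_le_pow _ _ (by omega)
  unfold S
  have h1 := sum_shift hn (fun y : ℤ => f (res m (T^[t] (((res m w : ℕ) : ℤ) + m * y))))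
    (fun y => S_per hT m f t _ y) (w / m)
  rw [← h1]
  apply Finset.sum_congr rfl
  intro h _
  congr 3
  rw [res_cast hm]
  have := Int.emod_add_mul_ediv w m
  show w + m * h = w % m + m * (w / m + h)
  linear_combination -this

lemma S_succ (hT : RPType d a b T) (m : ℕ) (hm : 1 ≤ m) (f : ℕ → ℝ) (t : ℕ) (z : ℤ) :
    S d m T f (t + 1) z = d * ∑ j ∈ Finset.range m, q d m T (res m z) j * S d m T f t (j : ℤ) := by
  have hd : 2 ≤ d := hT.two_le
  have hn : 1 ≤ d ^ t := Nat.one_le_pow _ _ (by omega)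
  rw [← hT.avg hm (fun j => S d m T f t (j : ℤ)) z]
  have e1 : S d m T f (t + 1) z =
      ∑ h0 ∈ Finset.range d, ∑ h' ∈ Finset.range (d ^ t),
        f (res m (T^[t + 1] (z + m * ((h0 + d * h' : ℕ) : ℤ)))) := by
    unfold S
    rw [← Finset.sum_product']
    refine Finset.sum_nbij' (fun h => (h % d, h / d)) (fun p => p.1 + d * p.2) ?_ ?_ ?_ ?_ ?_
    · intro h hh
      have hh' := Finset.mem_range.mp hh
      refine Finset.mem_product.mpr ⟨Finset.mem_range.mpr (Nat.mod_lt _ (by omega)),
        Finset.mem_range.mpr ?_⟩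
      exact Nat.div_lt_of_lt_mul (by rw [mul_comm, ← pow_succ]; exact hh')
    · intro p hp
      have hp' := Finset.mem_product.mp hp
      have h1 := Finset.mem_range.mp hp'.1
      have h2 := Finset.mem_range.mp hp'.2
      refine Finset.mem_range.mpr ?_
      calc p.1 + d * p.2 < d + d * p.2 := by omega
        _ = (p.2 + 1) * d := by ring
        _ ≤ d ^ t * d := Nat.mul_le_mul_right _ h2
        _ = d ^ (t + 1) := by rw [pow_succ]
    · intro h _; exact Nat.mod_add_div h d
    · intro p hp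
      have hp' := Finset.mem_product.mp hp
      have h1 := Finset.mem_range.mp hp'.1
      ext
      · show (p.1 + d * p.2) % d = p.1
        rw [Nat.add_mul_mod_self_left, Nat.mod_eq_of_lt h1]
      · show (p.1 + d * p.2) / d = p.2
        rw [Nat.add_mul_div_left _ _ (by omega), Nat.div_eq_of_lt h1, zero_add]
    · intro h _
      show f (res m (T^[t + 1] (z + m * h))) =
        f (res m (T^[t + 1] (z + m * ((h % d + d * (h / d) : ℕ) : ℤ))))
      rw [Nat.mod_add_div]
  rw [e1]
  apply Finset.sum_congr rfl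
  intro h0 _
  rw [← S_congr hT m hm]
  set w := T (z + m * h0) with hw
  set c := a ((z + m * h0) % (d : ℤ)).toNat with hc
  have hcop : IsCoprime c (((d ^ t : ℕ) : ℤ)) := by
    push_cast
    exact (hT.coprime _ (hT.digit_lt _)).pow_right
  have e2 : ∀ h' ∈ Finset.range (d ^ t),
      f (res m (T^[t + 1] (z + m * ((h0 + d * h' : ℕ) : ℤ)))) =
      f (res m (T^[t] (w + m * (c * h')))) := by
    intro h' _
    rw [Function.iterate_succ_apply]
    have e3 : z + (m : ℤ) * ((h0 + d * h' : ℕ) : ℤ) = (z + m * h0) + d * (m * h') := by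
      push_cast; ring
    rw [e3, hT.add, ← hc, ← hw]
    congr 3; ring
  rw [Finset.sum_congr rfl e2]
  exact sum_unit hn (fun y : ℤ => f (res m (T^[t] (w + m * y)))) (fun y => S_per hT m f t w y) c hcop

lemma stationary_S (hT : RPType d a b T) (m : ℕ) (hm : 1 ≤ m) (f : ℕ → ℝ) {p : ℕ → ℝ}
    (hst : ∀ j < m, p j = ∑ i ∈ Finset.range m, p i * q d m T i j) (t : ℕ) :
    ∑ i ∈ Finset.range m, p i * S d m T f t (i : ℤ) =
      (d : ℝ) ^ t * ∑ j ∈ Finset.range m, p j * f j := by
  induction t with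
  | zero =>
    simp only [pow_zero, one_mul]
    apply Finset.sum_congr rfl
    intro i hi
    have him := Finset.mem_range.mp hi
    unfold S
    simp [res_natCast him]
  | succ t ih =>
    have e1 : ∀ i ∈ Finset.range m, p i * S d m T f (t + 1) (i : ℤ) =
        ∑ j ∈ Finset.range m, d * ((p i * q d m T i j) * S d m T f t (j : ℤ)) := by
      intro i hi
      have him := Finset.mem_range.mp hi
      rw [S_succ hT m hm, res_natCast him, Finset.mul_sum, Finset.mul_sum]
      apply Finset.sum_congr rfl; intro j _; ring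
    rw [Finset.sum_congr rfl e1, Finset.sum_comm]
    have e2 : ∀ j ∈ Finset.range m,
        ∑ i ∈ Finset.range m, d * ((p i * q d m T i j) * S d m T f t (j : ℤ)) =
        d * (p j * S d m T f t (j : ℤ)) := by
      intro j hj
      have hjm := Finset.mem_range.mp hj
      rw [← Finset.mul_sum, ← Finset.sum_mul, ← hst j hjm]
    rw [Finset.sum_congr rfl e2, ← Finset.mul_sum, ih]
    ring

lemma S_power (hT : RPType d a b T) (K : ℕ) (f : ℕ → ℝ) (z : ℤ) :
    S d (d ^ K) T f K z = ∑ j ∈ Finset.range (d ^ K), f j := by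
  have hd : 2 ≤ d := hT.two_le
  have hn : 1 ≤ d ^ K := Nat.one_le_pow _ _ (by omega)
  obtain ⟨M, hM, hiter⟩ := hT.iter K z
  unfold S
  have hper : ∀ y : ℤ, (fun y : ℤ => f (res (d ^ K) (T^[K] z + y))) (y + ((d ^ K : ℕ) : ℤ)) =
      (fun y : ℤ => f (res (d ^ K) (T^[K] z + y))) y := by
    intro y
    show f (res (d ^ K) (T^[K] z + (y + ((d ^ K : ℕ) : ℤ)))) = f (res (d ^ K) (T^[K] z + y))
    have := res_add_mul (m := d ^ K) (T^[K] z + y) 1
    rw [mul_one] at this
    rw [← this, add_assoc]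
  have e1 : ∀ h ∈ Finset.range (d ^ K), f (res (d ^ K) (T^[K] (z + ((d ^ K : ℕ) : ℤ) * h))) =
      f (res (d ^ K) (T^[K] z + M * h)) := by
    intro h _
    have e2 : z + ((d ^ K : ℕ) : ℤ) * h = z + d ^ K * h := by push_cast; ring
    rw [e2, hiter]
  have hcop : IsCoprime M (((d ^ K : ℕ) : ℤ)) := by push_cast; exact hM.pow_right
  rw [Finset.sum_congr rfl e1,
    sum_unit hn (fun y : ℤ => f (res (d ^ K) (T^[K] z + y))) hper M hcop,
    sum_shift hn (fun y : ℤ => f (res (d ^ K) y)) (fun y => by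
      have := res_add_mul (m := d ^ K) y 1
      rw [mul_one] at this
      rw [this]) (T^[K] z)]
  apply Finset.sum_congr rfl
  intro h hh
  rw [res_natCast (Finset.mem_range.mp hh)]

theorem uniform_of_markov (hT : RPType d a b T) {x : ℤ} {K : ℕ}
    (h : MarkovFrequencies d (d ^ K) T x) : UniformMod (d ^ K) T x := by
  classical
  have hd : 2 ≤ d := hT.two_le
  have hm : 1 ≤ d ^ K := Nat.one_le_pow _ _ (by omega)
  obtain ⟨C, ⟨hCne, hCm, hirr, hcl⟩, π, hpos, hsum, hst, hstay, hlim⟩ := h
  set m := d ^ K with hmdef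
  set p : ℕ → ℝ := fun j => if j ∈ C then π j else 0 with hp
  have hsumC : ∀ g : ℕ → ℝ, ∑ i ∈ Finset.range m, p i * g i = ∑ i ∈ C, π i * g i := by
    intro g
    rw [← Finset.sum_subset hCm (fun i _ hi => by simp [hp, hi])]
    apply Finset.sum_congr rfl; intro i hi; simp [hp, hi]
  have hpst : ∀ j < m, p j = ∑ i ∈ Finset.range m, p i * q d m T i j := by
    intro j hj
    rw [hsumC]
    by_cases hjC : j ∈ C
    · simp only [hp, hjC, if_true]; exact hst j hjC
    · simp only [hp, hjC, if_false]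
      symm
      apply Finset.sum_eq_zero
      intro i hi
      have : q d m T i j = 0 := by
        by_contra hne
        exact hjC (hcl i hi j hj (lt_of_le_of_ne (q_nonneg m i j) (Ne.symm hne)))
      rw [this, mul_zero]
  have hp1 : ∑ i ∈ Finset.range m, p i = 1 := by
    have := hsumC (fun _ => 1)
    simp only [mul_one] at this
    rw [this]; exact hsum
  have hval : ∀ j < m, p j = 1 / (m : ℝ) := by
    intro j hj
    have h1 := stationary_S hT m hm (fun k => if k = j then (1 : ℝ) else 0) hpst K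
    simp only [hmdef, S_power hT K] at h1
    rw [← hmdef] at h1
    have h2 : ∑ k ∈ Finset.range m, (if k = j then (1 : ℝ) else 0) = 1 := by
      rw [Finset.sum_ite_eq', if_pos (Finset.mem_range.mpr hj)]
    have h3 : ∑ k ∈ Finset.range m, p k * (if k = j then (1 : ℝ) else 0) = p j := by
      simp only [mul_ite, mul_one, mul_zero]
      rw [Finset.sum_ite_eq', if_pos (Finset.mem_range.mpr hj)]
    rw [h2, h3] at h1
    simp only [mul_one] at h1
    rw [hp1] at h1
    have hm0 : (m : ℝ) ≠ 0 := by positivity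
    have h4 : (m : ℝ) = (d : ℝ) ^ K := by rw [hmdef]; push_cast; rfl
    rw [← h4] at h1
    field_simp
    linarith
  intro j hj
  have hm0 : (0 : ℝ) < m := by positivity
  have hjC : j ∈ C := by
    by_contra hcon
    have h1 := hval j hj
    simp only [hp, hcon, if_false] at h1
    have : (0 : ℝ) < 1 / m := by positivity
    linarith
  have h1 := hval j hj
  simp only [hp, hjC, if_true] at h1
  have := hlim j hjC
  rw [h1] at this
  exact this

/-- For every generalized Collatz mapping `T` of relatively prime type with modulus `d` and every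
integer `x`, the following are equivalent: the conclusion of the conjecture holds for the
trajectory of `x` at every modulus `m ≥ 2`; it holds at the moduli `m = d ^ K`, `K ≥ 1`; the
trajectory of `x` is uniformly distributed modulo `d ^ K` for every `K ≥ 1`. -/
theorem result (d : ℕ) (a b : ℕ → ℤ) (T : ℤ → ℤ) (hT : RPType d a b T) (x : ℤ) :
    List.TFAE [
      ∀ m : ℕ, 2 ≤ m → MarkovFrequencies d m T x,
      ∀ K : ℕ, 1 ≤ K → MarkovFrequencies d (d ^ K) T x,
      ∀ K : ℕ, 1 ≤ K → UniformMod (d ^ K) T x] := by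
  have hd : 2 ≤ d := hT.two_le
  tfae_have 1 → 2 := fun h K hK => h (d ^ K) (le_trans hd (Nat.le_self_pow (by omega) d))
  tfae_have 2 → 3 := fun h K hK => uniform_of_markov hT (h K hK)
  tfae_have 3 → 1 := fun h m hm => markov_of_uniform hT h (by omega)
  tfae_finish

end Pool.Agent.Results.MP_b75863_nt.PowersSuffice
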